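import Pool.Agent.helper64.D2.SpecF

set_option autoImplicit false

open Filter Topology
open scoped commutatorElement

namespace Pool.Agent.helper64.D2

/-- `⁅G, G⁆` is invariant under conjugation by the elements of `G`. -/
theorem COM_conj {M : Type*} [Group M] (G : Subgroup M) (t : M) (ht : t ∈ G) (x : M) (hx : x ∈ ⁅G, G⁆) :
    t * x * t⁻¹ ∈ ⁅G, G⁆ := by
  have e : ⁅G, G⁆ = Subgroup.closure {g : M | ∃ a ∈ G, ∃ b ∈ G, ⁅a, b⁆ = g} := Subgroup.commutator_def G G
  have hx' : x ∈ Subgroup.closure {g : M | ∃ a ∈ G, ∃ b ∈ G, ⁅a, b⁆ = g} := by rw [← e]; exact hx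
  refine Subgroup.closure_induction (p := fun y _ => t * y * t⁻¹ ∈ ⁅G, G⁆) ?_ ?_ ?_ ?_ hx'
  · rintro y ⟨a, ha, b, hb, rfl⟩
    have h1 : t * ⁅a, b⁆ * t⁻¹ = ⁅t * a * t⁻¹, t * b * t⁻¹⁆ := by
      simp only [commutatorElement_def]
      group
    rw [h1]
    exact Subgroup.commutator_mem_commutator (G.mul_mem (G.mul_mem ht ha) (G.inv_mem ht))
      (G.mul_mem (G.mul_mem ht hb) (G.inv_mem ht))
  · simp
  · intro y z _ _ hy hz
    have h1 : t * (y * z) * t⁻¹ = (t * y * t⁻¹) * (t * z * t⁻¹) := by group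
    rw [h1]
    exact (⁅G, G⁆ : Subgroup M).mul_mem hy hz
  · intro y _ hy
    have h1 : t * y⁻¹ * t⁻¹ = (t * y * t⁻¹)⁻¹ := by group
    rw [h1]
    exact (⁅G, G⁆ : Subgroup M).inv_mem hy

/-- Second derivative of a translated map. -/
theorem COM_d2 (F K : ℝ → ℝ) (s : ℝ) (hK : ∀ x, K x = F (x - s) + s) (x : ℝ) : d2 K x = d2 F (x - s) := by
  have h1 : deriv K = fun y => deriv F (y - s) := by
    funext y
    have e : K = fun z => F (z - s) + s := funext hK
    rw [e, deriv_add_const, deriv_comp_sub_const]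
  unfold d2
  rw [h1, deriv_comp_sub_const]

theorem COM (hCORE : CORE_stmt) (hFRG : FRG_stmt) (hCHT : CHT_stmt) (hGGB : GGB_stmt) (hMLA : MLA_stmt) : COM_stmt := by
  intro g hg hML
  obtain ⟨e0, he0, hC⟩ := hCORE
  obtain ⟨ε1, hε1, hT⟩ := hCHT e0 he0
  obtain ⟨l, hl, hl2⟩ := hFRG g hg ε1 hε1
  obtain ⟨hext, hmul, hone, hinv, hper, hmono, htr, hcomm⟩ := hGGB
  have key : ∀ h ∈ l, h ∈ (⁅G2, G2⁆ : Subgroup CircleDeg1Liftˣ) := by
    intro h hh
    obtain ⟨hG, ⟨α, hα⟩, hd, hm⟩ := hl2 h hh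
    obtain ⟨s, hs⟩ : ∃ s : ℝ, s = 35 / 100 - α := ⟨_, rfl⟩
    obtain ⟨t, ht⟩ : ∃ t : CircleDeg1Liftˣ, t = CircleDeg1Lift.translate (Multiplicative.ofAdd s) := ⟨_, rfl⟩
    have htG : t ∈ G2 := by rw [ht]; exact (htr s).1
    have htx : ∀ x, gg t x = x + s := by rw [ht]; exact (htr s).2
    have htix : ∀ x, gg t⁻¹ x = x - s := by
      intro x
      have h1 := (hinv t x).2
      rw [htx] at h1
      linarith
    have hk : ∀ x, gg (t * h * t⁻¹) x = gg h (x - s) + s := by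
      intro x
      rw [hmul, hmul, htix, htx]
    have hkG : t * h * t⁻¹ ∈ G2 := G2.mul_mem (G2.mul_mem htG hG) (G2.inv_mem htG)
    have hkS : SIn (t * h * t⁻¹) (35 / 100) (37 / 100) := by
      intro x hx
      rw [hk]
      have h1 : gg h (x - s) = x - s := by
        apply hα
        intro n hn
        apply hx n
        rw [Set.mem_Icc] at hn ⊢
        constructor
        · linarith [hn.1]
        · linarith [hn.2]
      rw [h1]; ring
    have hkd2 : ∀ x, d2 (gg (t * h * t⁻¹)) x = d2 (gg h) (x - s) := fun x => COM_d2 (gg h) (gg (t * h * t⁻¹)) s hk x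
    have hkd : ∀ x, |d2 (gg (t * h * t⁻¹)) x| ≤ ε1 := by
      intro x
      rw [hkd2]; exact hd _
    have hkML : ML (d2 (gg (t * h * t⁻¹))) := by
      have h1 : ML (fun x => d2 (gg h) (x - s)) := by
        apply hMLA.2.2.2 (d2 (gg h)) (fun x => x - s) 1 (hm hML)
        intro x y
        rw [one_mul]
        have e : x - s - (y - s) = x - y := by ring
        rw [e]
      have e : d2 (gg (t * h * t⁻¹)) = fun x => d2 (gg h) (x - s) := funext hkd2
      rw [e]; exact h1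
    obtain ⟨f, X, hRep, hCX, hX0, hXe, hXML, hTh⟩ := hT (t * h * t⁻¹) hkG hkS hkd
    have h1 := hC f X hRep hCX hX0 hXe (hXML hkML)
    rw [hTh] at h1
    have h2 := COM_conj G2 t⁻¹ (G2.inv_mem htG) _ h1
    have e : t⁻¹ * (t * h * t⁻¹) * t⁻¹⁻¹ = h := by group
    rw [e] at h2
    exact h2
  rw [← hl]
  exact Subgroup.list_prod_mem _ key

end Pool.Agent.helper64.D2
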