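import Pool.Agent.helper64.D2.SpecC

/-! # dc:HST: one stage of the chain -/

set_option autoImplicit false

open Filter Topology
open scoped commutatorElement

namespace Pool.Agent.helper64.D2

lemma HST_mono {g : DD} {a a' : ℝ} (h : Sz g a) (h' : a ≤ a') : Sz g a' := fun x => (h x).trans h'

lemma HST_nonneg {g : DD} {a : ℝ} (h : Sz g a) : 0 ≤ a := (abs_nonneg _).trans (h 0)

lemma HST_one : Sz (1 : DD) 0 := by
  intro x
  have h1 : ev (1 : DD) = fun y : ℝ => y := by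
    funext y; exact ev_one y
  have h2 : deriv (fun y : ℝ => y) = fun _ => (1 : ℝ) := by
    funext y; exact deriv_id y
  rw [d2, h1, h2]
  simp

lemma HST_mul (hSZC : SZC_stmt) {g h : DD} {a b : ℝ} (hg : Sz g a) (hh : Sz h b) (ha : a ≤ 1 / 8) (hb : b ≤ 1 / 8) :
    Sz (g * h) (2 * (a + b)) := by
  have ha0 := HST_nonneg hg
  have hb0 := HST_nonneg hh
  refine HST_mono (hSZC.2.2.1 g h a b hg hh ha hb) ?_
  nlinarith [mul_le_mul_of_nonneg_left hb ha0]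

lemma HST_comm (hSZC : SZC_stmt) {g h : DD} {s : ℝ} (hg : Sz g s) (hh : Sz h s) (hs : s ≤ 1 / 96) :
    Sz ⁅g, h⁆ (28 * s) := by
  have hs0 := HST_nonneg hg
  have h1 : Sz (g * h) (2 * (s + s)) := HST_mul hSZC hg hh (by linarith) (by linarith)
  have h2 : Sz g⁻¹ (2 * s) := hSZC.2.2.2.1 g s hg (by linarith)
  have h3 : Sz h⁻¹ (2 * s) := hSZC.2.2.2.1 h s hh (by linarith)
  have h4 : Sz (g * h * g⁻¹) (2 * (2 * (s + s) + 2 * s)) := HST_mul hSZC h1 h2 (by linarith) (by linarith)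
  have h5 : Sz (g * h * g⁻¹ * h⁻¹) (2 * (2 * (2 * (s + s) + 2 * s) + 2 * s)) :=
    HST_mul hSZC h4 h3 (by linarith) (by linarith)
  rw [commutatorElement_def]
  exact HST_mono h5 (by linarith)

lemma HST_St {X : ℝ → ℝ} {p q a L p' q' a' L' : ℝ} (h : St X p q a L) (hp : p' ≤ p) (hq : q ≤ q') (ha : a ≤ a')
    (hL : L ≤ L') : St X p' q' a' L' := by
  obtain ⟨h1, h2, h3, h4⟩ := h
  refine ⟨h1, ?_, fun x => (h3 x).trans ha, fun x y => (h4 x y).trans ?_⟩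
  · intro x hx
    apply h2
    intro hx'
    exact hx ⟨hp.trans hx'.1, hx'.2.trans hq⟩
  · exact mul_le_mul_of_nonneg_right hL (abs_nonneg _)

lemma HST_rep {R' : ℕ → DD} {u v : ℕ → DD} {n : ℕ} (hR : ∀ j, R' (j + 1) = ⁅u j, v j⁆ * R' j)
    (h1 : ∀ j ≥ n, u j = 1 ∧ v j = 1) : ∀ j, R' (n + j) = R' n := by
  intro j
  induction j with
  | zero => rfl
  | succ j ih =>
    rw [← add_assoc, hR (n + j), (h1 (n + j) (by omega)).1, (h1 (n + j) (by omega)).2, ih]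
    simp

lemma HST_chain (hSZC : SZC_stmt) {R' u v : ℕ → DD} {u1 v1 u2 v2 : DD} {n N : ℕ} {A s : ℝ}
    (hR1 : ∀ j, R' (j + 1) = ⁅u j, v j⁆ * R' j) (hR4 : ∀ j ≥ n, u j = 1 ∧ v j = 1) (hRA : ∀ j, Sz (R' j) A)
    (hA : A ≤ 1 / 8) (hu1 : Sz u1 s) (hv1 : Sz v1 s) (hu2 : Sz u2 s) (hv2 : Sz v2 s) (hs : s ≤ 1 / 1000)
    (hN : n + 2 ≤ N) :
    ∃ R u' v' : ℕ → DD, R 0 = R' 0 ∧ (∀ j, R (j + 1) = ⁅u j, v j⁆ * R j * ⁅u' j, v' j⁆) ∧
      (∀ j, Sz (R j) (2 * (A + 112 * s)) ∧ Sz (u' j) s ∧ Sz (v' j) s) ∧ (∀ j ≥ N, u' j = 1 ∧ v' j = 1) ∧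
      R N = R' n * (⁅u1, v1⁆ * ⁅u2, v2⁆)⁻¹ := by
  have hs0 : 0 ≤ s := HST_nonneg hu1
  have hc1 : Sz ⁅v1, u1⁆ (28 * s) := HST_comm hSZC hv1 hu1 (by linarith)
  have hc2 : Sz ⁅v2, u2⁆ (28 * s) := HST_comm hSZC hv2 hu2 (by linarith)
  have hRc : ∀ j, R' (n + j) = R' n := HST_rep hR1 hR4
  obtain ⟨Kj, hKj⟩ : ∃ Kj : ℕ → DD,
      Kj = fun j => if j ≤ n then 1 else if j = n + 1 then ⁅v2, u2⁆ else ⁅v2, u2⁆ * ⁅v1, u1⁆ := ⟨_, rfl⟩
  obtain ⟨u', hu'⟩ : ∃ u' : ℕ → DD, u' = fun j => if j = n then v2 else if j = n + 1 then v1 else 1 := ⟨_, rfl⟩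
  obtain ⟨v', hv'⟩ : ∃ v' : ℕ → DD, v' = fun j => if j = n then u2 else if j = n + 1 then u1 else 1 := ⟨_, rfl⟩
  have hKS : ∀ j, Sz (Kj j) (112 * s) := by
    intro j
    rw [hKj]
    dsimp only
    split_ifs with h1 h2
    · exact HST_mono HST_one (by linarith)
    · exact HST_mono hc2 (by linarith)
    · exact HST_mono (HST_mul hSZC hc2 hc1 (by linarith) (by linarith)) (by linarith)
  have hKr : ∀ j, Kj (j + 1) = Kj j * ⁅u' j, v' j⁆ := by
    intro j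
    rw [hKj, hu', hv']
    dsimp only
    rcases lt_trichotomy j n with hj | hj | hj
    · rw [if_pos (by omega), if_pos (by omega), if_neg (by omega), if_neg (by omega), if_neg (by omega),
        if_neg (by omega)]
      simp
    · rw [if_neg (by omega), if_pos (by omega), if_pos (by omega), if_pos hj, if_pos hj]
      simp
    · rcases eq_or_lt_of_le (Nat.succ_le_of_lt hj) with h2 | h2
      · rw [if_neg (by omega), if_neg (by omega), if_neg (by omega), if_pos (by omega), if_neg (by omega),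
          if_pos (by omega), if_neg (by omega), if_pos (by omega)]
      · rw [if_neg (by omega), if_neg (by omega), if_neg (by omega), if_neg (by omega), if_neg (by omega),
          if_neg (by omega), if_neg (by omega), if_neg (by omega)]
        simp
  refine ⟨fun j => R' j * Kj j, u', v', ?_, ?_, ?_, ?_, ?_⟩
  · show R' 0 * Kj 0 = R' 0
    rw [hKj]
    dsimp only
    rw [if_pos (by omega), mul_one]
  · intro j
    show R' (j + 1) * Kj (j + 1) = ⁅u j, v j⁆ * (R' j * Kj j) * ⁅u' j, v' j⁆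
    rw [hR1 j, hKr j]
    simp only [mul_assoc]
  · intro j
    refine ⟨HST_mul hSZC (hRA j) (hKS j) hA (by linarith), ?_, ?_⟩
    · rw [hu']
      dsimp only
      split_ifs
      · exact hv2
      · exact hv1
      · exact HST_mono HST_one hs0
    · rw [hv']
      dsimp only
      split_ifs
      · exact hu2
      · exact hu1
      · exact HST_mono HST_one hs0
  · intro j hj
    rw [hu', hv']
    dsimp only
    rw [if_neg (by omega), if_neg (by omega), if_neg (by omega), if_neg (by omega)]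
    exact ⟨rfl, rfl⟩
  · have h1 : R' N = R' n := by
      obtain ⟨i, hi⟩ := Nat.exists_eq_add_of_le (show n ≤ N by omega)
      rw [hi, hRc i]
    show R' N * Kj N = _
    rw [h1, hKj]
    dsimp only
    rw [if_neg (by omega), if_neg (by omega), mul_inv_rev, commutatorElement_inv, commutatorElement_inv]

theorem HST (hCMP : CMP_stmt) (hAPP : APP_stmt) (hBOX : BOX_stmt) (hLOW : LOW_stmt) (hRAT : RAT_stmt)
    (hSZC : SZC_stmt) : HST_stmt := by
  obtain ⟨CA, hCA, hA⟩ := hAPP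
  obtain ⟨CL, hCL, hLw⟩ := hLOW 1 le_rfl
  obtain ⟨N0, hN0⟩ : ∃ N0 : ℕ, ∀ b : ℕ, N0 ≤ b → (b : ℝ) ^ 60 ≤ 2 ^ b := by
    have h := tendsto_pow_const_div_const_pow_of_one_lt 60 (one_lt_two (α := ℝ))
    have h2 := (h.eventually (gt_mem_nhds (zero_lt_one (α := ℝ)))).exists_forall_of_atTop
    obtain ⟨N0, hN0⟩ := h2
    refine ⟨N0, fun b hb => ?_⟩
    have h3 := hN0 b hb
    rw [div_lt_one (by positivity)] at h3
    exact h3.le
  set K : ℝ := 2 ^ 52 * (CA + CL + 1) with hK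
  refine ⟨max N0 ⌈K⌉₊, CA + 448 * CL + 20, by linarith, ?_⟩
  intro b hb S F XS XF hS hF hSS hSF
  have hb1 : N0 ≤ b := (le_max_left _ _).trans hb
  have hb2 : K ≤ (b : ℝ) := (Nat.le_ceil K).trans (by exact_mod_cast (le_max_right _ _).trans hb)
  have hpow : (b : ℝ) ^ 60 ≤ 2 ^ b := hN0 b hb1
  have hK1 : (2 : ℝ) ^ 52 ≤ K := by
    rw [hK]; nlinarith [show (0 : ℝ) < 2 ^ 52 by positivity]
  have hbbig : (2 : ℝ) ^ 52 ≤ b := hK1.trans hb2
  have hb0 : (0 : ℝ) < b := by linarith [show (0 : ℝ) < 2 ^ 52 by positivity]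
  obtain ⟨t, ht⟩ : ∃ t : ℝ, t = 1 / (b : ℝ) := ⟨_, rfl⟩
  have ht0 : 0 < t := by rw [ht]; positivity
  have htb : t * b = 1 := by rw [ht]; field_simp
  have htK : (CA + CL + 1) * t ≤ 1 / 2 ^ 52 := by
    have h1 : 2 ^ 52 * (CA + CL + 1) * t ≤ b * t := mul_le_mul_of_nonneg_right hb2 ht0.le
    rw [mul_comm (b : ℝ) t, htb] at h1
    rw [le_div_iff₀ (by positivity)]
    linarith
  have hCAt : CA * t ≤ 1 / 2 ^ 52 := by nlinarith
  have hCLt : CL * t ≤ 1 / 2 ^ 52 := by nlinarith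
  have hCLt0 : 0 ≤ CL * t := by nlinarith
  have htt : t ≤ 1 / 2 ^ 52 := by nlinarith
  have ht1 : t ≤ 1 := htt.trans (by norm_num)
  have hp : ∀ k j : ℕ, j ≤ k → t ^ k ≤ t ^ j := fun k j h => pow_le_pow_of_le_one ht0.le ht1 h
  have hpk : ∀ k : ℕ, 1 / (b : ℝ) ^ k = t ^ k := fun k => by rw [ht, one_div_pow]
  have hpk1 : 1 / (b : ℝ) = t := ht.symm
  have hbn : 2 ^ 52 ≤ b := by exact_mod_cast hbbig
  -- step 1
  rw [hpk, hpk1] at hSS
  rw [hpk] at hSF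
  have ha0 : (0 : ℝ) ≤ t ^ 40 := by positivity
  have ha1 : t ^ 40 ≤ 1 / 2 ^ 52 := by
    calc t ^ 40 ≤ t ^ 1 := hp 40 1 (by norm_num)
      _ = t := pow_one t
      _ ≤ _ := htt
  have hq1 : (6 / 10 : ℝ) ≤ 13 / 20 - t := by
    have : t ≤ 1 / 20 := htt.trans (by norm_num)
    linarith
  obtain ⟨Z, hZ1, hZ2⟩ := hCMP S F XS XF (3 / 10) (13 / 20 - t) (t ^ 40) (t ^ 40) (2 ^ (3 * b)) (2 ^ (2 * b)) hS hF
    hSS (HST_St hSF le_rfl hq1 le_rfl le_rfl) (by norm_num) (by linarith) (by linarith)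
    (ha1.trans (by norm_num)) (ha1.trans (by norm_num)) (by positivity) (by positivity)
  obtain ⟨L, hL⟩ : ∃ L : ℝ, L = 2 ^ (3 * b + 3) := ⟨_, rfl⟩
  have hL0 : 0 < L := by rw [hL]; positivity
  have hZ3 : St Z (3 / 10) (13 / 20 - t) (3 * t ^ 40) L := by
    refine HST_St hZ2 le_rfl le_rfl ?_ ?_
    · nlinarith [mul_le_mul_of_nonneg_left ha1 ha0]
    · rw [hL, pow_add]
      have h1 : (2 : ℝ) ^ (2 * b) ≤ 2 ^ (3 * b) := pow_le_pow_right₀ (by norm_num) (by omega)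
      have h2 : (1 : ℝ) ≤ 2 ^ (3 * b) := one_le_pow₀ (by norm_num)
      linarith
  -- step 2
  obtain ⟨n, hn⟩ : ∃ n : ℕ, n = 4 * b + 3 := ⟨_, rfl⟩
  have h2n : (0 : ℝ) < 2 ^ n := by positivity
  obtain ⟨θ, hθ⟩ : ∃ θ : ℝ, θ = t ^ 4 / 2 ^ n := ⟨_, rfl⟩
  have hθ0 : 0 < θ := by rw [hθ]; positivity
  have hnθ : 2 ^ n * θ = t ^ 4 := by rw [hθ]; field_simp
  have hncast : (n : ℝ) = 4 * b + 3 := by rw [hn]; push_cast; ring
  have ht4 : t ^ 4 ≤ t := by simpa using hp 4 1 (by norm_num)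
  have ht40 : t ^ 40 ≤ t := by simpa using hp 40 1 (by norm_num)
  have hna : (n : ℝ) * (3 * t ^ 40) ≤ 1 / 100 := by
    have h1 : (b : ℝ) * t ^ 40 = t ^ 39 := by
      calc (b : ℝ) * t ^ 40 = (t * b) * t ^ 39 := by ring
        _ = t ^ 39 := by rw [htb, one_mul]
    have h2 : t ^ 39 ≤ t := by simpa using hp 39 1 (by norm_num)
    rw [hncast]
    have h3 : (4 * (b : ℝ) + 3) * (3 * t ^ 40) = 12 * t ^ 39 + 9 * t ^ 40 := by
      rw [← h1]; ring
    rw [h3]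
    have h4 : t ≤ 1 / 10000 := htt.trans (by norm_num)
    linarith
  obtain ⟨R', u, v, X', hR0, hR1, hR2, hR3, hR4, hR5⟩ := hA n (S * F) Z (3 / 10) (13 / 20 - t) (3 * t ^ 40) L θ
    hZ1 hZ3 hL0.le (by positivity) (by
      have h4 : t ≤ 1 / 10000 := htt.trans (by norm_num)
      linarith) hna (by norm_num) (by linarith) (by
      rw [hnθ]
      have h4 : t ≤ 1 / 10000 := htt.trans (by norm_num)
      linarith) hθ0 (by
      rw [hnθ]
      calc CA * t ^ 4 ≤ CA * t := mul_le_mul_of_nonneg_left ht4 (by linarith)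
        _ ≤ 1 / 2 ^ 52 := hCAt
        _ ≤ 1 := by norm_num)
  simp only [hnθ] at hR2 hR3 hR5
  -- step 3
  have hw0 : (0 : ℝ) < t ^ 4 := by positivity
  obtain ⟨hB1, hB2, -, hB4, hB5, hB6⟩ := hBOX Z (3 / 10) (13 / 20 - t) (3 * t ^ 40) (-t ^ 4) 0 hZ3.1 hZ3.2.1 hZ3.2.2.1
    (by linarith)
  simp only [sub_zero, sub_neg_eq_add, zero_add, add_zero] at hB2 hB4 hB6
  set Xt : ℝ → ℝ := av Z (-t ^ 4) 0 with hXt
  -- step 4
  have hM : 2 * (3 * t ^ 40) / t ^ 4 = 6 * t ^ 36 := by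
    rw [div_eq_iff hw0.ne']; ring
  rw [hM] at hB6
  have ht20 : t ^ 20 ≤ t := by simpa using hp 20 1 (by norm_num)
  have ht20p : 0 < t ^ 20 := by positivity
  have hCL20 : CL * (2 * t ^ 20) ≤ 1 / 2 ^ 50 := by
    calc CL * (2 * t ^ 20) = 2 * (CL * t ^ 20) := by ring
      _ ≤ 2 * (CL * t) := by
        have := mul_le_mul_of_nonneg_left ht20 (show (0 : ℝ) ≤ CL by linarith)
        linarith
      _ ≤ 2 * (1 / 2 ^ 52) := by linarith
      _ ≤ _ := by norm_num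
  have hsmall : t ≤ 1 / 10000 := htt.trans (by norm_num)
  obtain ⟨u1, v1, u2, v2, D, hD1, hD2, hu1, hv1, hu2, hv2, hD3⟩ := hLw Xt (3 / 10) (13 / 20 - t + t ^ 4) (2 * t ^ 20)
    (6 * t ^ 36) hB1 hB2 (fun x => (hB5 x).trans (by
      have : 1 * (2 * t ^ 20) ^ 2 = 4 * t ^ 40 := by ring
      rw [this]; linarith)) hB6 (by norm_num) (by norm_num) (by linarith) (by linarith) (by linarith)
      (hCL20.trans (by norm_num)) (by positivity)
  -- errors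
  have h2b : 1 / (2 : ℝ) ^ b ≤ t ^ 60 := by
    rw [ht, one_div_pow]
    exact one_div_le_one_div_of_le (by positivity) hpow
  have hLθ : L * θ ≤ t ^ 64 := by
    have h1 : L * θ = t ^ 4 * (1 / 2 ^ b) := by
      rw [hL, hθ, hn, show 4 * b + 3 = (3 * b + 3) + b by ring, pow_add (2 : ℝ) (3 * b + 3) b]
      field_simp
    rw [h1]
    calc t ^ 4 * (1 / 2 ^ b) ≤ t ^ 4 * t ^ 60 := mul_le_mul_of_nonneg_left h2b hw0.le
      _ = t ^ 64 := by ring
  have hna2 : 5 * (n : ℝ) * (3 * t ^ 40) ^ 2 ≤ 315 * t ^ 79 := by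
    have h1 : (b : ℝ) * t ^ 80 = t ^ 79 := by
      calc (b : ℝ) * t ^ 80 = (t * b) * t ^ 79 := by ring
        _ = t ^ 79 := by rw [htb, one_mul]
    have h2 : t ^ 80 ≤ t ^ 79 := hp 80 79 (by norm_num)
    rw [hncast]
    have h3 : 5 * (4 * (b : ℝ) + 3) * (3 * t ^ 40) ^ 2 = 180 * t ^ 79 + 135 * t ^ 80 := by
      rw [← h1]; ring
    rw [h3]
    linarith
  obtain ⟨e, he⟩ : ∃ e : ℝ, e = L * θ + 5 * (n : ℝ) * (3 * t ^ 40) ^ 2 +
      CL * (2 * t ^ 20) * (6 * t ^ 36 + (2 * t ^ 20) ^ 2) := ⟨_, rfl⟩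
  have he2 : e ≤ 317 * t ^ 41 := by
    have h1 : t ^ 64 ≤ t ^ 41 := hp 64 41 (by norm_num)
    have h2 : t ^ 79 ≤ t ^ 41 := hp 79 41 (by norm_num)
    have h3 : CL * (2 * t ^ 20) * (6 * t ^ 36 + (2 * t ^ 20) ^ 2) = (CL * t) * (12 * t ^ 55 + 8 * t ^ 59) := by ring
    have h4 : t ^ 55 ≤ t ^ 41 := hp 55 41 (by norm_num)
    have h5 : t ^ 59 ≤ t ^ 41 := hp 59 41 (by norm_num)
    have h6 : (CL * t) * (12 * t ^ 55 + 8 * t ^ 59) ≤ (1 / 2 ^ 52) * (20 * t ^ 41) := by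
      apply mul_le_mul hCLt (by linarith) (by positivity) (by positivity)
    have h7 : (1 / 2 ^ 52 : ℝ) * (20 * t ^ 41) ≤ 1 * t ^ 41 := by
      rw [← mul_assoc]
      exact mul_le_mul_of_nonneg_right (by norm_num) (by positivity)
    rw [he, h3]
    linarith
  -- step 5
  have hq2 : 13 / 20 - t + t ^ 4 + 2 * t ^ 20 ≤ 1 := by linarith
  have hRn := hR2 n le_rfl
  have hCL40 : CL * (2 * t ^ 20) ^ 2 ≤ 1 / 8 := by
    have h1 : CL * (2 * t ^ 20) ^ 2 = (CL * (2 * t ^ 20)) * (2 * t ^ 20) := by ring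
    rw [h1]
    calc (CL * (2 * t ^ 20)) * (2 * t ^ 20) ≤ (1 / 2 ^ 50) * 1 :=
          mul_le_mul hCL20 (by linarith) (by positivity) (by positivity)
      _ ≤ 1 / 8 := by norm_num
  obtain ⟨Y, hY1, hY2, hY3, hY4, -, hY6⟩ := hRAT (R' n) (⁅u1, v1⁆ * ⁅u2, v2⁆) (X' n) D (3 / 10)
    (13 / 20 - t + t ^ 4 + 2 * t ^ 20) (1 / 8) hRn.1 hD1 hRn.2.1 hD2.1 (by
      intro x hx
      refine ⟨hRn.2.2.1 x ?_, hD2.2.1 x hx⟩
      intro hx'
      exact hx ⟨hx'.1, hx'.2.trans (by linarith)⟩) (fun x =>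
      ⟨(hRn.2.2.2.1 x).trans (by linarith), (hD2.2.2.1 x).trans hCL40⟩)
      (by norm_num) (by linarith) hq2 (by norm_num)
  have hYe := hY4 e (by
    intro x
    have h1 := hR5 x
    have h2 := hD3 x
    rw [hB4 x] at h2
    have h3 : d2 (X' n) x - d2 D x = (d2 (X' n) x - (deriv Z x - deriv Z (x - t ^ 4)) / t ^ 4)
        - (d2 D x - (deriv Z x - deriv Z (x + -t ^ 4)) / t ^ 4) := by
      rw [← sub_eq_add_neg]; ring
    rw [h3, he]
    exact (abs_sub _ _).trans (add_le_add h1 h2))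
  have hLR : (0 : ℝ) ≤ 2 ^ (3 * b + 5) := by positivity
  have hYL := hY6 (2 ^ (3 * b + 5)) hLR (by
    intro x y
    refine (hRn.2.2.2.2 x y).trans (mul_le_mul_of_nonneg_right ?_ (abs_nonneg _))
    rw [hL, show 3 * b + 5 = (3 * b + 3) + 2 by ring, pow_add (2 : ℝ) (3 * b + 3) 2]
    have h2 : (1 : ℝ) ≤ 2 ^ (3 * b + 3) := one_le_pow₀ (by norm_num)
    linarith) (by
    intro x y
    refine (hD2.2.2.2 x y).trans (mul_le_mul_of_nonneg_right ?_ (abs_nonneg _))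
    have h1 : CL * (6 * t ^ 36 + (2 * t ^ 20) ^ 2) = (CL * t) * (6 * t ^ 35 + 4 * t ^ 39) := by ring
    rw [h1]
    have h2 : t ^ 35 ≤ 1 := pow_le_one₀ ht0.le ht1
    have h3 : t ^ 39 ≤ 1 := pow_le_one₀ ht0.le ht1
    calc (CL * t) * (6 * t ^ 35 + 4 * t ^ 39) ≤ (1 / 2 ^ 52) * 10 :=
          mul_le_mul hCLt (by linarith) (by positivity) (by positivity)
      _ ≤ 1 := by norm_num
      _ ≤ _ := one_le_pow₀ (by norm_num))
  -- the chain
  have hs0 : 0 ≤ CL * (2 * t ^ 20) := by positivity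
  have hRc : ∀ j, R' (n + j) = R' n := HST_rep hR1 hR4
  have hSzR : ∀ j, Sz (R' j) (2 * (3 * t ^ 40)) := by
    intro j
    rcases le_total j n with hj | hj
    · intro x
      rw [(hSZC.1 (R' j) (X' j) (hR2 j hj).1).2.2.2 x]
      exact (hR2 j hj).2.2.2.1 x
    · obtain ⟨i, rfl⟩ := Nat.exists_eq_add_of_le hj
      rw [hRc i]
      intro x
      rw [(hSZC.1 (R' n) (X' n) (hR2 n le_rfl).1).2.2.2 x]
      exact (hR2 n le_rfl).2.2.2.1 x
  have h5b : n + 2 ≤ 5 * b := by omega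
  obtain ⟨R, u', v', hC0, hC1, hC2, hC3, hC4⟩ := HST_chain (N := 5 * b) hSZC hR1 hR4 hSzR
    (by linarith only [ht40, hsmall]) hu1 hv1 hu2 hv2 (hCL20.trans (by norm_num)) h5b
  have hCt : ∀ x : ℝ, x / (b : ℝ) ^ 4 = x * t ^ 4 := by
    intro x; rw [← hpk 4]; ring
  have ht204 : t ^ 20 ≤ t ^ 4 := hp 20 4 (by norm_num)
  have ht404 : t ^ 40 ≤ t ^ 4 := hp 40 4 (by norm_num)
  have hCL0 : (0 : ℝ) ≤ CL := by linarith only [hCL]
  have hCA0 : (0 : ℝ) ≤ CA := by linarith only [hCA]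
  have hw1 : 0 ≤ CL * t ^ 4 := mul_nonneg hCL0 hw0.le
  have hw2 : 0 ≤ CA * t ^ 4 := mul_nonneg hCA0 hw0.le
  have hCL204 : CL * (2 * t ^ 20) ≤ 2 * (CL * t ^ 4) := by
    have := mul_le_mul_of_nonneg_left ht204 hCL0
    linarith only [this]
  have hCC : (CA + 448 * CL + 20) * t ^ 4 = CA * t ^ 4 + 448 * (CL * t ^ 4) + 20 * t ^ 4 := by ring
  refine ⟨R, u, v, u', v', Y, hC0.trans hR0, hC1, ?_, ?_, ?_, ?_⟩
  · intro j
    rw [hCt, hCC]
    obtain ⟨k1, k2, k3⟩ := hC2 j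
    refine ⟨HST_mono k1 ?_, HST_mono (hR3 j).1 ?_, HST_mono (hR3 j).2 ?_, HST_mono k2 ?_, HST_mono k3 ?_⟩
    · linarith only [ht404, hCL204, hw1, hw2, hw0]
    · linarith only [hw1, hw2, hw0]
    · linarith only [ht404, hw1, hw2, hw0]
    · linarith only [hCL204, hw1, hw2, hw0]
    · linarith only [hCL204, hw1, hw2, hw0]
  · intro j hj
    exact ⟨(hR4 j (by omega)).1, (hR4 j (by omega)).2, (hC3 j hj).1, (hC3 j hj).2⟩
  · rw [hC4]
    exact hY1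
  · obtain ⟨b', hb'⟩ : ∃ b' : ℕ, b' = b + b / 5 := ⟨_, rfl⟩
    rw [← hb']
    have hb'1 : b' ≤ 2 * b := by omega
    have hb'2 : 7 * b ≤ 6 * b' := by omega
    have hb'3 : 3 * b + 8 ≤ 3 * b' := by omega
    have hb'0 : (0 : ℝ) < b' := by
      have : 0 < b' := by omega
      exact_mod_cast this
    have hb'4 : 1 / (b' : ℝ) ≤ 6 / 7 * t := by
      rw [div_le_iff₀ hb'0]
      have h1 : 7 * (b : ℝ) ≤ 6 * b' := by exact_mod_cast hb'2
      have h2 : 7 * (b : ℝ) * t ≤ 6 * b' * t := mul_le_mul_of_nonneg_right h1 ht0.le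
      have h3 : 7 * (b : ℝ) * t = 7 := by
        calc 7 * (b : ℝ) * t = 7 * (t * b) := by ring
          _ = 7 := by rw [htb, mul_one]
      rw [h3] at h2
      linarith
    have hb'5 : 634 * t ^ 41 ≤ 1 / (b' : ℝ) ^ 40 := by
      have h1 : (b' : ℝ) ≤ 2 * b := by exact_mod_cast hb'1
      have h2 : (b' : ℝ) ^ 40 ≤ (2 * b) ^ 40 := pow_le_pow_left₀ hb'0.le h1 40
      rw [le_div_iff₀ (by positivity)]
      calc 634 * t ^ 41 * (b' : ℝ) ^ 40 ≤ 634 * t ^ 41 * (2 * b) ^ 40 :=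
            mul_le_mul_of_nonneg_left h2 (by positivity)
        _ = 634 * 2 ^ 40 * t * (t * b) ^ 40 := by ring
        _ = 634 * 2 ^ 40 * t := by rw [htb]; ring
        _ ≤ 634 * 2 ^ 40 * (1 / 2 ^ 52) := mul_le_mul_of_nonneg_left htt (by positivity)
        _ ≤ 1 := by norm_num
    refine ⟨hY2, ?_, ?_, ?_⟩
    · intro x hx
      apply hY3
      intro hx'
      apply hx
      refine ⟨hx'.1, hx'.2.trans ?_⟩
      have h4 : t ^ 4 ≤ t * (1 / 100) := by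
        calc t ^ 4 ≤ t ^ 2 := hp 4 2 (by norm_num)
          _ = t * t := by ring
          _ ≤ t * (1 / 100) := mul_le_mul_of_nonneg_left (by linarith) ht0.le
      have h5 : t ^ 20 ≤ t * (1 / 100) := by
        calc t ^ 20 ≤ t ^ 2 := hp 20 2 (by norm_num)
          _ = t * t := by ring
          _ ≤ t * (1 / 100) := mul_le_mul_of_nonneg_left (by linarith) ht0.le
      linarith
    · intro x
      refine (hYe x).trans ?_
      linarith
    · intro x y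
      refine (hYL x y).trans (mul_le_mul_of_nonneg_right ?_ (abs_nonneg _))
      have h1 : (2 : ℝ) ^ (3 * b + 8) ≤ 2 ^ (3 * b') := pow_le_pow_right₀ (by norm_num) hb'3
      have h2 : (2 : ℝ) ^ (3 * b + 8) = 2 ^ (3 * b + 5) * 8 := by
        rw [show 3 * b + 8 = (3 * b + 5) + 3 by ring, pow_add]; norm_num
      have h3 : (1 : ℝ) ≤ 2 ^ (3 * b + 5) := one_le_pow₀ (by norm_num)
      linarith

end Pool.Agent.helper64.D2

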